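import Mathlib
import Pool.Agent.H9.WMC.Lin

/-!
# Project WMC, module WMP

For a space with Frobenius and monodromy, weight-monodromy of weight `w` is equivalent to the
bijectivity of `N ^ n` from the part of weight `w + n` to the part of weight `w - n`.
-/

namespace Pool.WMC

open Module Module.End Pool.H73.WM Pool.H9.WMC

namespace WMP

variable {q : ℕ} {Ω : Type} [Field Ω] [CharZero Ω] (M : FN q Ω)

/-- The part of weight at most `v`. -/
def wle (v : ℤ) : Submodule Ω M.V := GS M.F {α : Ω | ∃ u ≤ v, IsWeil q α u}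

theorem wt_def (v : ℤ) : M.wt v = GS M.F {α : Ω | IsWeil q α v} := rfl

theorem q_ne (hq : 1 < q) : (q : Ω) ≠ 0 := by
  have : q ≠ 0 := by omega
  exact_mod_cast this

theorem gen_eq_bot {α : Ω} (h : ¬ ∃ w : ℤ, IsWeil q α w) :
    maxGenEigenspace M.F α = ⊥ := by
  by_contra hne
  obtain ⟨x, hx, hx0⟩ := (Submodule.ne_bot_iff _).1 hne
  rw [mem_maxGenEigenspace] at hx
  apply h
  classical
  let n := Nat.find hx
  have hn : ((M.F - α • (1 : End Ω M.V)) ^ n) x = 0 := Nat.find_spec hx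
  have hn0 : n ≠ 0 := by
    intro h0
    rw [h0] at hn
    exact hx0 (by simpa using hn)
  obtain ⟨m, hm⟩ := Nat.exists_eq_succ_of_ne_zero hn0
  have hm' : ((M.F - α • (1 : End Ω M.V)) ^ m) x ≠ 0 :=
    Nat.find_min hx (by omega)
  refine M.mixed α (((M.F - α • (1 : End Ω M.V)) ^ m) x) hm' ?_
  rw [hm, pow_succ'] at hn
  have : (M.F - α • (1 : End Ω M.V)) (((M.F - α • (1 : End Ω M.V)) ^ m) x) = 0 := hn
  rw [LinearMap.sub_apply, sub_eq_zero] at this
  rw [this]
  rfl

theorem wle_eq (v : ℤ) : wle M v = M.wt v ⊔ wle M (v - 1) := by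
  unfold wle
  rw [wt_def, ← GS_union]
  congr 1
  ext α
  simp only [Set.mem_ofPred_eq, Set.mem_union]
  constructor
  · rintro ⟨u, hu, h⟩
    by_cases h2 : u = v
    · left; subst h2; exact h
    · right; exact ⟨u, by omega, h⟩
  · rintro (h | ⟨u, hu, h⟩)
    · exact ⟨v, le_refl _, h⟩
    · exact ⟨u, by omega, h⟩

theorem wle_mono {u v : ℤ} (h : u ≤ v) : wle M u ≤ wle M v := by
  apply GS_mono
  rintro α ⟨t, ht, hα⟩
  exact ⟨t, by omega, hα⟩

theorem wt_disj (hq : 1 < q) (w : ℤ) {v : ℤ} (hv : v < w) :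
    Disjoint (M.wt w) (wle M v) := by
  rw [wt_def]
  apply GS_disjoint
  rw [Set.disjoint_left]
  rintro α hα ⟨u, hu, hβ⟩
  have := IsWeil.unique hq hα hβ
  omega

theorem N_gen (hq : 1 < q) (α : Ω) :
    ∀ x ∈ maxGenEigenspace M.F α, M.N x ∈ maxGenEigenspace M.F (α * (q : Ω)⁻¹) := by
  have hq0 : (q : Ω) ≠ 0 := q_ne hq
  apply mapsTo_gen (c := (q : Ω)⁻¹)
  intro x
  have h := M.NF x
  have h2 : M.F (M.N x) = (q : Ω)⁻¹ • M.N (M.F x) := by
    rw [h, smul_smul, inv_mul_cancel₀ hq0, one_smul]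
  rw [h2, map_sub, map_smul, smul_sub, smul_smul, mul_comm α]

theorem N_GS (hq : 1 < q) (S S' : Set Ω) (h : ∀ α ∈ S, α * (q : Ω)⁻¹ ∈ S') :
    ∀ x ∈ GS M.F S, M.N x ∈ GS M.F S' := by
  have : GS M.F S ≤ (GS M.F S').comap M.N := by
    apply GS_le
    intro α hα x hx
    exact le_GS _ (h α hα) (N_gen M hq α x hx)
  exact this

theorem N_wt (hq : 1 < q) (w : ℤ) : ∀ x ∈ M.wt w, M.N x ∈ M.wt (w - 2) := by
  apply N_GS M hq
  intro α hα
  exact (IsWeil.mul hq hα isWeil_qinv)

theorem N_wle (hq : 1 < q) (w : ℤ) : ∀ x ∈ wle M w, M.N x ∈ wle M (w - 2) := by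
  apply N_GS M hq
  rintro α ⟨v, hv, hα⟩
  exact ⟨v + -2, by omega, (IsWeil.mul hq hα isWeil_qinv)⟩

theorem Npow_wt (hq : 1 < q) (w : ℤ) (k : ℕ) :
    ∀ x ∈ M.wt w, (M.N ^ k) x ∈ M.wt (w - 2 * k) := by
  induction k with
  | zero => intro x hx; simpa using hx
  | succ k ih =>
    intro x hx
    rw [pow_succ']
    have := N_wt M hq _ _ (ih x hx)
    have e : w - 2 * (k : ℤ) - 2 = w - 2 * ((k + 1 : ℕ) : ℤ) := by push_cast; ring
    rw [e] at this
    exact this

theorem Npow_wle (hq : 1 < q) (w : ℤ) (k : ℕ) :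
    ∀ x ∈ wle M w, (M.N ^ k) x ∈ wle M (w - 2 * k) := by
  induction k with
  | zero => intro x hx; simpa using hx
  | succ k ih =>
    intro x hx
    rw [pow_succ']
    have := N_wle M hq _ _ (ih x hx)
    have e : w - 2 * (k : ℤ) - 2 = w - 2 * ((k + 1 : ℕ) : ℤ) := by push_cast; ring
    rw [e] at this
    exact this

/-- one step down the filtration -/
theorem step {w : ℤ} {L : ℤ → Submodule Ω M.V} (hF : ∀ j, ∀ x ∈ L j, M.F x ∈ L j)
    (hp : ∀ j, ∀ x ∈ L j, x ∉ L (j - 1) → ∀ α : Ω, M.F x - α • x ∈ L (j - 1) →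
      IsWeil q α (w + j)) {j : ℤ} {x : M.V} (hx : x ∈ L j) {α : Ω}
    (hxα : x ∈ maxGenEigenspace M.F α) (hα : ¬ IsWeil q α (w + j)) : x ∈ L (j - 1) := by
  by_contra hne
  rw [mem_maxGenEigenspace] at hxα
  have hex : ∃ m : ℕ, ((M.F - α • (1 : End Ω M.V)) ^ m) x ∈ L (j - 1) := by
    obtain ⟨m, hm⟩ := hxα
    exact ⟨m, by rw [hm]; exact Submodule.zero_mem _⟩
  have hst : ∀ m : ℕ, ((M.F - α • (1 : End Ω M.V)) ^ m) x ∈ L j := by
    intro m
    induction m with
    | zero => simpa using hx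
    | succ m ih =>
      rw [pow_succ']
      change M.F (((M.F - α • (1 : End Ω M.V)) ^ m) x) -
        α • (((M.F - α • (1 : End Ω M.V)) ^ m) x) ∈ L j
      exact Submodule.sub_mem _ (hF j _ ih) (Submodule.smul_mem _ _ ih)
  classical
  let n := Nat.find hex
  have hn : ((M.F - α • (1 : End Ω M.V)) ^ n) x ∈ L (j - 1) := Nat.find_spec hex
  have hn0 : n ≠ 0 := by
    intro h0
    rw [h0] at hn
    exact hne (by simpa using hn)
  obtain ⟨m, hm⟩ := Nat.exists_eq_succ_of_ne_zero hn0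
  have hm' : ((M.F - α • (1 : End Ω M.V)) ^ m) x ∉ L (j - 1) := Nat.find_min hex (by omega)
  refine hα (hp j _ (hst m) hm' α ?_)
  rw [hm, pow_succ'] at hn
  exact hn

/-- repeated steps -/
theorem descend {w : ℤ} {L : ℤ → Submodule Ω M.V} (hF : ∀ j, ∀ x ∈ L j, M.F x ∈ L j)
    (hp : ∀ j, ∀ x ∈ L j, x ∉ L (j - 1) → ∀ α : Ω, M.F x - α • x ∈ L (j - 1) →
      IsWeil q α (w + j)) {x : M.V} {α : Ω} (hxα : x ∈ maxGenEigenspace M.F α) (j : ℤ) (n : ℕ)
    (hα : ∀ i : ℤ, j - n < i → i ≤ j → ¬ IsWeil q α (w + i)) (hx : x ∈ L j) :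
    x ∈ L (j - n) := by
  induction n with
  | zero => simpa using hx
  | succ n ih =>
    have h1 := ih (fun i hi hi' => hα i (by push_cast; omega) hi')
    have h2 := step M hF hp h1 hxα (hα _ (by push_cast; omega) (by omega))
    have e : j - (n : ℤ) - 1 = j - ((n + 1 : ℕ) : ℤ) := by push_cast; ring
    rw [e] at h2
    exact h2

variable [IsAlgClosed Ω]

theorem mixed_top : GS M.F {α : Ω | ∃ w : ℤ, IsWeil q α w} = ⊤ := by
  rw [eq_top_iff, ← GS_univ M.F]
  apply GS_le
  intro α _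
  by_cases h : ∃ w : ℤ, IsWeil q α w
  · exact le_GS _ h
  · rw [gen_eq_bot M h]
    exact bot_le

theorem exists_wle_bot (hq : 1 < q) : ∃ w : ℤ, wle M w = ⊥ := by
  let f : ℕ →o (Submodule Ω M.V)ᵒᵈ :=
    ⟨fun n => OrderDual.toDual (wle M (-(n : ℤ))), fun a b hab => by
      change wle M (-(b : ℤ)) ≤ wle M (-(a : ℤ))
      exact wle_mono M (by omega)⟩
  obtain ⟨n, hn⟩ := IsArtinian.monotone_stabilizes f
  refine ⟨-(n : ℤ), ?_⟩
  by_contra hne
  obtain ⟨x, hx, hx0⟩ := (Submodule.ne_bot_iff _).1 hne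
  obtain ⟨y, hyP, hy0, α, hyF⟩ :=
    exists_eigenvector M.F (wle M (-(n : ℤ))) (fun y hy => GS_mapsTo_F _ _ y hy) hx hx0
  obtain ⟨v, hv, hα⟩ := eig_mem M.F _ hyP hy0 hyF
  have h1 : wle M (-(n : ℤ)) = wle M (-(((1 - v).toNat : ℕ) : ℤ)) :=
    hn (1 - v).toNat (by omega)
  rw [h1] at hyP
  obtain ⟨u, hu, hα'⟩ := eig_mem M.F _ hyP hy0 hyF
  have := IsWeil.unique hq hα hα'
  omega

theorem exists_wle_top : ∃ w : ℤ, wle M w = ⊤ := by
  let f : ℕ →o (Submodule Ω M.V) :=
    ⟨fun n => wle M (n : ℤ), fun a b hab => by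
      change wle M (a : ℤ) ≤ wle M (b : ℤ)
      exact wle_mono M (by omega)⟩
  obtain ⟨n, hn⟩ := monotone_stabilizes_iff_noetherian.2 inferInstance f
  refine ⟨(n : ℤ), ?_⟩
  rw [eq_top_iff, ← mixed_top M]
  apply GS_le
  rintro α ⟨v, hv⟩
  have h1 : wle M (n : ℤ) = wle M ((max n v.toNat : ℕ) : ℤ) := hn _ (le_max_left _ _)
  rw [h1]
  exact le_GS _ ⟨v, by omega, hv⟩

theorem wm_of_pur (hq : 1 < q) (w : ℤ) (h : M.Pur w) : M.WM w := by
  refine ⟨fun j => wle M (w + j), ?_, ?_, ?_⟩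
  · refine ⟨?_, ?_, ?_, ?_, ?_, ?_⟩
    · intro a b hab
      exact wle_mono M (by omega)
    · obtain ⟨v, hv⟩ := exists_wle_bot M hq
      refine ⟨v - w, ?_⟩
      change wle M (w + (v - w)) = ⊥
      rw [← hv]
      congr 1
      ring
    · obtain ⟨v, hv⟩ := exists_wle_top M
      refine ⟨v - w, ?_⟩
      change wle M (w + (v - w)) = ⊤
      rw [← hv]
      congr 1
      ring
    · intro j x hx
      have := N_wle M hq _ x hx
      have e : w + j - 2 = w + (j - 2) := by ring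
      rw [e] at this
      exact this
    · intro k x hx hNx
      change x ∈ wle M (w + k) at hx
      rw [wle_eq] at hx
      obtain ⟨a, ha, b, hb, hab⟩ := Submodule.mem_sup.1 hx
      have hNb := Npow_wle M hq _ k b hb
      have e1 : w + k - 1 - 2 * k = w + (-k - 1) := by ring
      rw [e1] at hNb
      have hNa : (M.N ^ k) a = 0 := by
        have h1 : (M.N ^ k) a ∈ wle M (w + (-k - 1)) := by
          have : (M.N ^ k) a = (M.N ^ k) x - (M.N ^ k) b := by
            rw [← hab, map_add]; abel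
          rw [this]
          exact Submodule.sub_mem _ hNx hNb
        have h2 := Npow_wt M hq _ k a ha
        exact Submodule.disjoint_def.1 (wt_disj M hq _ (by omega)) _ h2 h1
      have ha0 := (h k).1 a ha hNa
      rw [← hab, ha0, zero_add]
      have e2 : w + k - 1 = w + (k - 1) := by ring
      rw [e2] at hb
      exact hb
    · intro k y hy
      change y ∈ wle M (w + -k) at hy
      rw [wle_eq] at hy
      obtain ⟨a, ha, b, hb, hab⟩ := Submodule.mem_sup.1 hy
      obtain ⟨x, hx, hxa⟩ := (h k).2 a ha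
      refine ⟨x, ?_, ?_⟩
      · change x ∈ wle M (w + k)
        rw [wle_eq]
        exact Submodule.mem_sup_left hx
      · rw [hxa, ← hab]
        have e2 : w + -k - 1 = w + (-k - 1) := by ring
        rw [e2] at hb
        simpa using hb
  · intro j x hx
    exact GS_mapsTo_F _ _ x hx
  · intro j x hx hx' α hα
    change x ∈ wle M (w + j) at hx
    rw [wle_eq] at hx
    obtain ⟨a, ha, b, hb, hab⟩ := Submodule.mem_sup.1 hx
    have e2 : w + j - 1 = w + (j - 1) := by ring
    rw [e2] at hb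
    have ha0 : a ≠ 0 := by
      rintro rfl
      apply hx'
      rw [← hab, zero_add]
      exact hb
    have hFa : M.F a - α • a = 0 := by
      have h1 : M.F a - α • a ∈ wle M (w + (j - 1)) := by
        have : M.F a - α • a = (M.F x - α • x) - (M.F b - α • b) := by
          rw [← hab, map_add, smul_add]; abel
        rw [this]
        refine Submodule.sub_mem _ hα (Submodule.sub_mem _ (GS_mapsTo_F _ _ b hb) ?_)
        exact Submodule.smul_mem _ _ hb
      have h2 : M.F a - α • a ∈ M.wt (w + j) :=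
        Submodule.sub_mem _ (GS_mapsTo_F _ _ a ha) (Submodule.smul_mem _ _ ha)
      exact Submodule.disjoint_def.1 (wt_disj M hq _ (by omega)) _ h2 h1
    exact eig_mem M.F _ ha ha0 (sub_eq_zero.1 hFa)

/-- The monodromy filtration of a weight-monodromy space is the weight filtration. -/
theorem filtration_eq (hq : 1 < q) {w : ℤ} {L : ℤ → Submodule Ω M.V}
    (hL : IsMonodromyFiltration M.N L) (hF : ∀ j, ∀ x ∈ L j, M.F x ∈ L j)
    (hp : ∀ j, ∀ x ∈ L j, x ∉ L (j - 1) → ∀ α : Ω, M.F x - α • x ∈ L (j - 1) →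
      IsWeil q α (w + j)) (j : ℤ) : L j = wle M (w + j) := by
  apply le_antisymm
  · have h1 : L j = ⨆ α, L j ⊓ maxGenEigenspace M.F α := by
      have h2 := Submodule.eq_iSup_inf_genEigenspace (p := L j) (f := M.F) ⊤ (hF j)
        (iSup_maxGenEigenspace_eq_top M.F)
      exact h2
    rw [h1]
    apply iSup_le
    intro α x hx
    obtain ⟨hx1, hx2⟩ := hx
    by_cases hw : ∃ u : ℤ, IsWeil q α u
    · obtain ⟨u, hu⟩ := hw
      by_cases hle : u ≤ w + j
      · exact le_GS M.F (S := {α : Ω | ∃ v ≤ w + j, IsWeil q α v}) ⟨u, hle, hu⟩ hx2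
      · obtain ⟨b, hb⟩ := hL.bot
        have hx3 : x = 0 := by
          by_cases hbj : b ≤ j
          · have h3 := descend M hF hp hx2 j (j - b).toNat (by
              intro i _ hi hα
              have := IsWeil.unique hq hα hu
              omega) hx1
            have e : j - ((j - b).toNat : ℤ) = b := by omega
            rw [e, hb] at h3
            simpa using h3
          · have h3 := hL.mono (by omega : j ≤ b) hx1
            rw [hb] at h3
            simpa using h3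
        rw [hx3]
        exact Submodule.zero_mem _
    · rw [SetLike.mem_coe, gen_eq_bot M hw] at hx2
      have hx3 : x = 0 := by simpa using hx2
      rw [hx3]
      exact Submodule.zero_mem _
  · apply GS_le
    rintro α ⟨u, hu, hα⟩ x hx
    obtain ⟨t, ht⟩ := hL.top
    by_cases htj : t ≤ j
    · have h3 := hL.mono htj
      rw [ht] at h3
      exact h3 trivial
    · have hxt : x ∈ L t := by rw [ht]; trivial
      have h3 := descend M hF hp hx t (t - j).toNat (by
        intro i hi _ hα'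
        have := IsWeil.unique hq hα' hα
        omega) hxt
      have e : t - ((t - j).toNat : ℤ) = j := by omega
      rw [e] at h3
      exact h3

theorem pur_of_wm (hq : 1 < q) (w : ℤ) (h : M.WM w) : M.Pur w := by
  obtain ⟨L, hL, hF, hp⟩ := h
  have hE := filtration_eq M hq hL hF hp
  intro n
  refine ⟨?_, ?_⟩
  · intro x hx hNx
    have hx1 : x ∈ L n := by
      rw [hE, wle_eq]
      exact Submodule.mem_sup_left hx
    have hx2 := hL.inj n x hx1 (by rw [hNx]; exact Submodule.zero_mem _)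
    rw [hE] at hx2
    exact Submodule.disjoint_def.1 (wt_disj M hq _ (by omega)) _ hx hx2
  · intro y hy
    have hy1 : y ∈ L (-n) := by
      rw [hE, wle_eq]
      exact Submodule.mem_sup_left hy
    obtain ⟨x, hx, hxy⟩ := hL.surj n y hy1
    rw [hE, wle_eq] at hx
    obtain ⟨a, ha, b, hb, hab⟩ := Submodule.mem_sup.1 hx
    refine ⟨a, ha, ?_⟩
    have hNb := Npow_wle M hq _ n b hb
    have e1 : w + n - 1 - 2 * n = w - n - 1 := by ring
    rw [e1] at hNb
    rw [hE] at hxy
    have e2 : w + (-n - 1) = w - n - 1 := by ring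
    rw [e2] at hxy
    have hNa := Npow_wt M hq _ n a ha
    have e3 : w + n - 2 * n = w - n := by ring
    rw [e3] at hNa
    have h4 : (M.N ^ n) a - y ∈ wle M (w - n - 1) := by
      have : (M.N ^ n) a - y = -(y - (M.N ^ n) x) - (M.N ^ n) b := by
        rw [← hab, map_add]; abel
      rw [this]
      exact Submodule.sub_mem _ (Submodule.neg_mem _ hxy) hNb
    have h5 : (M.N ^ n) a - y ∈ M.wt (w - n) := Submodule.sub_mem _ hNa hy
    exact sub_eq_zero.1 (Submodule.disjoint_def.1 (wt_disj M hq _ (by omega)) _ h5 h4)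

end WMP

theorem wmp_thm : WMPStmt := by
  intro q Ω _ _ _ hq M w
  exact ⟨WMP.pur_of_wm M hq w, WMP.wm_of_pur M hq w⟩

end Pool.WMC
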